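import Pool.Agent.helper29.JZ.Spec

set_option autoImplicit false

open Finset Polynomial Module

namespace Pool.Agent.helper16.JZ

open Pool.Agent.helper29.JZ Pool.Agent.helper97.FP FP97

noncomputable section

theorem jz_COL : COL_stmt := by
  intro h h' x y M hy
  have hcard : ∀ k, (BB y M k).card = col M k := by
    intro k
    unfold BB col
    apply Finset.card_image_of_injOn
    intro z hz z' hz' hzz
    have h1 := (Finset.mem_filter.mp (Finset.mem_coe.mp hz)).2
    have h2 := (Finset.mem_filter.mp (Finset.mem_coe.mp hz')).2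
    exact Prod.ext (h1.trans h2.symm) (hy hzz)
  have huniq : ∀ z ∈ PA M, ∀ z' ∈ M, z.1 = z'.1 → z = z' := by
    intro z hz z' hz' hzz
    obtain ⟨hzM, hc⟩ := Finset.mem_filter.mp hz
    unfold col at hc
    have hle := Finset.card_le_one.mp (le_of_eq hc)
    exact hle z (Finset.mem_filter.mpr ⟨hzM, rfl⟩) z' (Finset.mem_filter.mpr ⟨hz', hzz.symm⟩)
  have hSH : ∀ P Q : ℂ[X], (SH x (BB y M) P Q).card = (HC x y M P Q).card := by
    intro P Q
    have e : SH x (BB y M) P Q = (HC x y M P Q).image (fun z => z.1) := by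
      ext k
      rw [mem_SH, Finset.mem_image, hcard k]
      constructor
      · rintro ⟨h1, b, hb, hbb⟩
        unfold BB at hb
        obtain ⟨z, hz, rfl⟩ := Finset.mem_image.mp hb
        obtain ⟨hzM, hzk⟩ := Finset.mem_filter.mp hz
        refine ⟨z, ?_, hzk⟩
        unfold HC
        rw [Finset.mem_filter]
        refine ⟨Finset.mem_filter.mpr ⟨hzM, by rw [hzk]; exact h1⟩, ?_⟩
        rw [hzk, hbb, mul_comm]
      · rintro ⟨z, hz, rfl⟩
        unfold HC at hz
        obtain ⟨hzA, he⟩ := Finset.mem_filter.mp hz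
        obtain ⟨hzM, hc⟩ := Finset.mem_filter.mp hzA
        refine ⟨hc, y z.2, ?_, ?_⟩
        · exact Finset.mem_image.mpr ⟨z, Finset.mem_filter.mpr ⟨hzM, rfl⟩, rfl⟩
        · rw [← he, mul_comm]
    rw [e]
    apply Finset.card_image_of_injOn
    intro z hz z' hz' hzz
    have h1 := (Finset.mem_filter.mp (Finset.mem_coe.mp hz)).1
    have h2 := (Finset.mem_filter.mp (Finset.mem_filter.mp (Finset.mem_coe.mp hz')).1).1
    exact huniq z h1 z' h2 hzz
  refine ⟨hcard, ?_, ?_, hSH⟩
  · intro z
    rw [Finset.mem_coe]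
    unfold ZZ BB
    rw [Finset.mem_image]
    constructor
    · rintro ⟨w, hw, rfl⟩
      exact ⟨w.1, rfl, Finset.mem_image.mpr ⟨w, Finset.mem_filter.mpr ⟨hw, rfl⟩, rfl⟩⟩
    · rintro ⟨k, hk, hb⟩
      obtain ⟨w, hw, hw2⟩ := Finset.mem_image.mp hb
      obtain ⟨hwM, hwk⟩ := Finset.mem_filter.mp hw
      refine ⟨w, hwM, ?_⟩
      apply Prod.ext
      · rw [hk, hwk]
      · exact hw2
  · have e : Sing (BB y M) = (PA M).image (fun z => z.1) := by
      ext k
      rw [mem_Sing, Finset.mem_image, hcard k]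
      constructor
      · intro h1
        have h2 := h1
        unfold col at h2
        obtain ⟨z, hz⟩ := Finset.card_eq_one.mp h2
        have hz1 : z ∈ M.filter fun z => z.1 = k := by rw [hz]; exact Finset.mem_singleton_self z
        obtain ⟨hzM, hzk⟩ := Finset.mem_filter.mp hz1
        exact ⟨z, Finset.mem_filter.mpr ⟨hzM, by rw [hzk]; exact h1⟩, hzk⟩
      · rintro ⟨z, hz, rfl⟩
        exact (Finset.mem_filter.mp hz).2
    rw [e]
    apply Finset.card_image_of_injOn
    intro z hz z' hz' hzz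
    have h1 := Finset.mem_coe.mp hz
    have h2 := (Finset.mem_filter.mp (Finset.mem_coe.mp hz')).1
    exact huniq z h1 z' h2 hzz

end

end Pool.Agent.helper16.JZ
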