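import Pool.Agent.helper29.JZ.Spec

set_option autoImplicit false

open Finset Polynomial Module

namespace Pool.Agent.helper16.JZ

open Pool.Agent.helper29.JZ Pool.Agent.helper97.FP FP97

noncomputable section

theorem jz_HOR : HOR_stmt := by
  intro hCRS h h' x y M P Q a hx hy hC
  by_cases hma : mA M ≤ a
  · exact Or.inl hma
  right
  have hlt : a < mA M := not_le.mp hma
  have hpos : 0 < mA M := lt_of_le_of_lt (Nat.zero_le _) hlt
  -- the row
  have hne : (univ : Finset (Fin h')).Nonempty := by
    by_contra hcon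
    rw [Finset.not_nonempty_iff_eq_empty] at hcon
    unfold mA at hpos
    rw [hcon, Finset.sup_empty] at hpos
    exact absurd hpos (lt_irrefl _)
  obtain ⟨m, -, hm⟩ := Finset.exists_mem_eq_sup univ hne
    (fun m : Fin h' => ((PA M).filter fun z => z.2 = m).card)
  have hmA : mA M = ((PA M).filter fun z => z.2 = m).card := hm
  have hHC1 : HC x y M 1 (C (y m)) = (PA M).filter fun z => z.2 = m := by
    unfold HC
    ext z
    rw [Finset.mem_filter, Finset.mem_filter]
    apply and_congr_right
    intro _
    rw [eval_one, one_mul, eval_C]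
    exact hy.eq_iff
  have heq := hC.eq
  have hle := hC.le
  have hcr : (PA M).card + (max P.natDegree Q.natDegree +
      max (1 : ℂ[X]).natDegree (C (y m) : ℂ[X]).natDegree) <
      (HC x y M P Q).card + (HC x y M 1 (C (y m))).card := by
    rw [natDegree_one, natDegree_C, max_self, hHC1, ← hmA]
    omega
  have hpq : P * C (y m) = 1 * Q := hCRS h h' x y M P Q 1 (C (y m)) hx hcr
  rw [one_mul] at hpq
  have hdvd : P ∣ Q := ⟨C (y m), hpq.symm⟩
  have hu : IsUnit P := hC.cop.isUnit_of_dvd' (dvd_refl P) hdvd
  obtain ⟨p, hp, hpP⟩ := Polynomial.isUnit_iff.mp hu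
  have hp0 : p ≠ 0 := hp.ne_zero
  have hQ : Q = C (p * y m) := by rw [← hpq, ← hpP, C_mul]
  have hdeg : max P.natDegree Q.natDegree = 0 := by
    rw [hQ, ← hpP, natDegree_C, natDegree_C, max_self]
  have hHC2 : HC x y M P Q = (PA M).filter fun z => z.2 = m := by
    unfold HC
    ext z
    rw [Finset.mem_filter, Finset.mem_filter]
    apply and_congr_right
    intro _
    rw [hQ, ← hpP, eval_C, eval_C]
    constructor
    · intro he
      exact hy (mul_left_cancel₀ hp0 he)
    · intro he
      rw [he]
  rw [hdeg, hHC2, ← hmA] at heq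
  omega

end

end Pool.Agent.helper16.JZ
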