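import Pool.Agent.helper29.JZ.Spec

set_option autoImplicit false

open Finset Polynomial Module

namespace Pool.Agent.helper16.JZ

open Pool.Agent.helper29.JZ Pool.Agent.helper97.FP FP97

noncomputable section

theorem jz_PT1 : PT1_stmt := by
  intro hEXM hTRA hTRB hEXC hHOR hJNT hTFO Z
  obtain ⟨h, h', x, y, M, hx, hy, hc, hr, hcard, hZ⟩ := hEXM Z
  obtain ⟨P, Q, a, hC⟩ := hEXC h h' x y M hx hy
  obtain ⟨P', Q', b, hC'⟩ := hEXC h' h y x (tr M) hy hx
  obtain ⟨t1, t2, t3, t4, -, -, -, -⟩ := hTRB hTRA h h' M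
  refine ⟨h, h', M, a, b, ⟨hcard, hc, hr, hC.le, hHOR h h' x y M P Q a hx hy hC, ?_, ?_, ?_⟩, ?_⟩
  · have := hC'.le
    rw [t1] at this
    exact this
  · have := hHOR h' h y x (tr M) P' Q' b hy hx hC'
    rw [t1, t3] at this
    exact this
  · exact hJNT h h' x y M P Q P' Q' a b hx hy hC hC'
  · intro i j hij
    rw [← hZ]
    exact hTFO h h' x y M P Q P' Q' a b hx hy hc hr hC hC' i j hij

end

end Pool.Agent.helper16.JZ
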