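import Pool.Agent.helper29.JZ.Spec

set_option autoImplicit false

open Finset Polynomial Module

namespace Pool.Agent.helper16.JZ

open Pool.Agent.helper29.JZ Pool.Agent.helper97.FP FP97

noncomputable section

theorem jz_PT2 : PT2_stmt := by
  intro hREA hTFO h h' M a b r hJ
  obtain ⟨x, y, P, Q, P', Q', hx, hy, hC, hC'⟩ := hREA h h' M a b r hJ
  refine ⟨ZZ x y M, ?_, ?_⟩
  · unfold ZZ
    rw [Finset.card_image_of_injective, hJ.card]
    intro z z' hzz
    exact Prod.ext (hx (congrArg Prod.fst hzz)) (hy (congrArg Prod.snd hzz))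
  · exact hTFO h h' x y M P Q P' Q' a b hx hy hJ.cols hJ.rows hC hC'

end

end Pool.Agent.helper16.JZ
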