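import Pool.Agent.helper29.JZ.Spec

set_option autoImplicit false

open Finset Polynomial Module

namespace Pool.Agent.helper16.JZ

open Pool.Agent.helper29.JZ Pool.Agent.helper97.FP FP97

noncomputable section

lemma SEL_aux {α β : Type*} [DecidableEq α] [DecidableEq β] (S : Finset α) (f : α → β) (q : ℕ)
    (hq : q ≤ (S.image f).card) :
    ∃ T ⊆ S, T.card = q ∧ ∀ z ∈ T, ∀ z' ∈ T, f z = f z' → z = z' := by
  obtain ⟨V, hV, hVq⟩ := Finset.exists_subset_card_eq hq
  have hex : ∀ v ∈ V, ∃ z ∈ S, f z = v := by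
    intro v hv
    exact Finset.mem_image.mp (hV hv)
  classical
  have hg : ∀ v : {v // v ∈ V}, ∃ z, z ∈ S ∧ f z = v.1 := by
    intro v
    obtain ⟨z, hz, hzv⟩ := hex v.1 v.2
    exact ⟨z, hz, hzv⟩
  choose g hgS hgf using hg
  refine ⟨V.attach.image g, ?_, ?_, ?_⟩
  · intro z hz
    obtain ⟨v, -, rfl⟩ := Finset.mem_image.mp hz
    exact hgS v
  · rw [Finset.card_image_of_injective, Finset.card_attach, hVq]
    intro v v' hvv
    apply Subtype.ext
    rw [← hgf v, ← hgf v', hvv]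
  · intro z hz z' hz' hzz
    obtain ⟨v, -, rfl⟩ := Finset.mem_image.mp hz
    obtain ⟨v', -, rfl⟩ := Finset.mem_image.mp hz'
    rw [hgf, hgf] at hzz
    rw [Subtype.ext hzz]

theorem jz_SEL : SEL_stmt := by
  intro n m S q
  exact ⟨fun hq => SEL_aux S Prod.snd q hq, fun hq => SEL_aux S Prod.fst q hq⟩

end

end Pool.Agent.helper16.JZ
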